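import Mathlib
import Pool.Agent.Lib.MP_e12961_lc.Final
import Pool.Agent.Lib.MP_e12961_lc.Scott

/-!
# A hyperimmune-free degree and a hyperimmune PA degree at Hausdorff distance less than one

The Hausdorff distance of Turing degrees for the upper density of the symmetric difference. There
are a hyperimmune-free degree and a degree that is both hyperimmune and PA at distance at most
`7 / 8`.
-/

set_option autoImplicit false

open Filter Topology

namespace Pool.Agent.Results.MP_e12961_lc.DistanceLtOne

/-! ## Turing degrees -/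

open Classical in
/-- The characteristic function of a set of natural numbers, as an oracle in the sense of
Mathlib's `TuringReducible`. -/
noncomputable def chi (A : Set ℕ) : ℕ →. ℕ := fun n => Part.some (if n ∈ A then 1 else 0)

/-- The set `A` computes the function `f`. -/
def Computes (A : Set ℕ) (f : ℕ → ℕ) : Prop :=
  TuringReducible (fun n => Part.some (f n)) (chi A)

/-- The Turing degree of `A`: all sets that are Turing equivalent to `A`. -/
def degree (A : Set ℕ) : Set (Set ℕ) :=
  {B | TuringReducible (chi B) (chi A) ∧ TuringReducible (chi A) (chi B)}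

/-- The degree of `A` is hyperimmune: `A` computes a function `f` such that no computable function
`g` satisfies `f n ≤ g n` for all but finitely many `n`. -/
def Hyperimmune (A : Set ℕ) : Prop :=
  ∃ f : ℕ → ℕ, Computes A f ∧ ∀ g : ℕ → ℕ, Computable g → ¬ ∀ᶠ n in atTop, f n ≤ g n

/-- The degree of `A` is PA: `A` computes a member of every nonempty effectively closed class of
infinite binary sequences (a `Π⁰₁` class: the sequences with no initial segment in a computably
enumerable set `W` of strings). The complete consistent extensions of Peano arithmetic form such a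
class; by a theorem of Scott this is equivalent to computing one of them. -/
def IsPA (A : Set ℕ) : Prop :=
  ∀ W : List Bool → Prop, REPred W → (∃ X : ℕ → Bool, ∀ n, ¬ W ((List.range n).map X)) →
    ∃ P : ℕ → Bool, Computes A (fun n => (P n).toNat) ∧ ∀ n, ¬ W ((List.range n).map P)

/-! ## The distance -/

/-- The upper density of a set of natural numbers. -/
noncomputable def upperDensity (X : Set ℕ) : ℝ :=
  limsup (fun n : ℕ => ((X ∩ Set.Iio n).ncard : ℝ) / n) atTop

/-- The pseudometric: the upper density of the symmetric difference. Its classes of sets at distance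
`0` are the coarse similarity classes. -/
noncomputable def delta (A B : Set ℕ) : ℝ := upperDensity (symmDiff A B)

/-- The closure of a family of sets with respect to `delta`. -/
def closure (𝓐 : Set (Set ℕ)) : Set (Set ℕ) :=
  {A | ∀ ε : ℝ, 0 < ε → ∃ B ∈ 𝓐, delta A B < ε}

/-- The distance of a set to a family of sets. -/
noncomputable def distTo (A : Set ℕ) (𝓑 : Set (Set ℕ)) : ℝ := sInf (delta A '' 𝓑)

/-- The Hausdorff distance of two families of sets. -/
noncomputable def hausdorff (𝓐 𝓑 : Set (Set ℕ)) : ℝ :=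
  max (sSup ((fun A => distTo A 𝓑) '' 𝓐)) (sSup ((fun B => distTo B 𝓐) '' 𝓑))

/-- The distance `H` of the degrees of `A` and `B`: the Hausdorff distance of the closures of the
two degrees. -/
noncomputable def H (A B : Set ℕ) : ℝ := hausdorff (closure (degree A)) (closure (degree B))

/-! ## Proof -/

/-- the proportion of a set below `n` -/
noncomputable def fr (X : Set ℕ) (n : ℕ) : ℝ := ((X ∩ Set.Iio n).ncard : ℝ) / n

theorem fin (X : Set ℕ) (n : ℕ) : (X ∩ Set.Iio n).Finite :=
  (Set.finite_Iio n).subset Set.inter_subset_right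

theorem fr_nonneg (X : Set ℕ) (n : ℕ) : 0 ≤ fr X n := by unfold fr; positivity

theorem fr_le_one (X : Set ℕ) (n : ℕ) : fr X n ≤ 1 := by
  unfold fr
  rcases Nat.eq_zero_or_pos n with rfl | hn
  · simp
  · have hn' : (0 : ℝ) < n := by exact_mod_cast hn
    rw [div_le_one hn']
    have h1 : (X ∩ Set.Iio n).ncard ≤ (Set.Iio n).ncard :=
      Set.ncard_le_ncard Set.inter_subset_right (Set.finite_Iio n)
    have h2 : (Set.Iio n).ncard = n := by
      rw [← Finset.coe_Iio, Set.ncard_coe_finset, Nat.card_Iio]
    rw [h2] at h1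
    exact_mod_cast h1

theorem bdd (X : Set ℕ) : IsBoundedUnder (· ≤ ·) atTop (fr X) :=
  isBoundedUnder_of ⟨1, fr_le_one X⟩

theorem bdd' (X : Set ℕ) : IsBoundedUnder (· ≥ ·) atTop (fr X) :=
  isBoundedUnder_of ⟨0, fr_nonneg X⟩

theorem delta_nonneg (A B : Set ℕ) : 0 ≤ delta A B := by
  refine le_limsup_of_le (bdd _) fun b hb => ?_
  obtain ⟨n, hn⟩ := hb.exists
  exact (fr_nonneg _ n).trans hn

theorem delta_le {A B : Set ℕ} {c : ℝ} (h : ∀ ε : ℝ, 0 < ε → ∀ᶠ n in atTop,
    fr (symmDiff A B) n ≤ c + ε) : delta A B ≤ c := by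
  refine le_of_forall_pos_le_add fun ε hε => ?_
  exact limsup_le_of_le (bdd' _).isCoboundedUnder_le (h ε hε)

theorem fr_triangle (A B C : Set ℕ) (n : ℕ) :
    fr (symmDiff A C) n ≤ fr (symmDiff A B) n + fr (symmDiff B C) n := by
  unfold fr
  rw [← add_div]
  refine div_le_div_of_nonneg_right ?_ (Nat.cast_nonneg n)
  have h1 : symmDiff A C ∩ Set.Iio n ⊆
      (symmDiff A B ∩ Set.Iio n) ∪ (symmDiff B C ∩ Set.Iio n) := by
    rintro i ⟨h1, h2⟩
    rw [Set.mem_symmDiff] at h1
    simp only [Set.mem_union, Set.mem_inter_iff, Set.mem_symmDiff]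
    by_cases hb : i ∈ B <;> tauto
  have h2 := (Set.ncard_le_ncard h1 ((fin _ n).union (fin _ n))).trans (Set.ncard_union_le _ _)
  exact_mod_cast h2

theorem delta_self (A : Set ℕ) : delta A A = 0 := by
  refine le_antisymm (delta_le fun ε hε => ?_) (delta_nonneg A A)
  refine Filter.Eventually.of_forall fun n => ?_
  have : fr (symmDiff A A) n = 0 := by
    rw [symmDiff_self]
    unfold fr
    simp
  rw [this]
  linarith

theorem delta_triangle (A B C : Set ℕ) : delta A C ≤ delta A B + delta B C := by
  refine delta_le fun ε hε => ?_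
  have h1 : ∀ᶠ n in atTop, fr (symmDiff A B) n < delta A B + ε / 2 :=
    eventually_lt_of_limsup_lt (u := fr (symmDiff A B)) (by
      show delta A B < _
      linarith) (bdd _)
  have h2 : ∀ᶠ n in atTop, fr (symmDiff B C) n < delta B C + ε / 2 :=
    eventually_lt_of_limsup_lt (u := fr (symmDiff B C)) (by
      show delta B C < _
      linarith) (bdd _)
  filter_upwards [h1, h2] with n h3 h4
  have := fr_triangle A B C n
  linarith

theorem delta_closure {𝓐 : Set (Set ℕ)} {x B : Set ℕ} {c : ℝ} (hx : x ∈ closure 𝓐)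
    (h : ∀ C ∈ 𝓐, delta C B ≤ c) : delta x B ≤ c := by
  refine le_of_forall_pos_le_add fun ε hε => ?_
  obtain ⟨C, hC, hxC⟩ := hx ε hε
  have h1 := delta_triangle x C B
  have h2 := h C hC
  linarith

theorem distTo_le {x B : Set ℕ} {𝓑 : Set (Set ℕ)} (hB : B ∈ 𝓑) : distTo x 𝓑 ≤ delta x B := by
  refine csInf_le ⟨0, ?_⟩ ⟨B, hB, rfl⟩
  rintro _ ⟨C, -, rfl⟩
  exact delta_nonneg x C

theorem self_mem (A : Set ℕ) : A ∈ closure (degree A) := fun ε hε =>
  ⟨A, ⟨TuringReducible.refl _, TuringReducible.refl _⟩, by rw [delta_self]; exact hε⟩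

open Classical in
/-- the boolean characteristic function -/
noncomputable def bl (A : Set ℕ) : ℕ → Bool := fun n => decide (n ∈ A)

theorem chi_bl (A : Set ℕ) : chi A = fun n => Part.some (bl A n).toNat := by
  funext n
  unfold chi bl
  by_cases h : n ∈ A <;> simp [h]

theorem bl_eq (X : ℕ → Bool) : bl {n | X n = true} = X := by
  funext n
  unfold bl
  simp

open Pool.Agent.MP_e12961_lc in
theorem conv (Z : ℕ → Bool) (f : ℕ → ℕ) :
    TuringReducible (fun n => Part.some (f n)) (fun n => Part.some (Z n).toNat) ↔ TR Z f :=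
  RecursiveIn.iff_nat

/-- the number of differences -/
theorem fr_symmDiff (A B : Set ℕ) (n : ℕ) : fr (symmDiff A B) n =
    (((Finset.range n).filter fun i => bl A i ≠ bl B i).card : ℝ) / n := by
  unfold fr
  congr 2
  rw [← Set.ncard_coe_finset]
  congr 1
  ext i
  simp only [Set.mem_inter_iff, Set.mem_symmDiff, Set.mem_Iio, Finset.coe_filter,
    Finset.mem_range, Set.mem_ofPred_eq]
  unfold bl
  by_cases h1 : i ∈ A <;> by_cases h2 : i ∈ B <;> simp [h1, h2]

theorem delta_le_of_count {A B : Set ℕ} {c : ℝ} (M : ℝ) (h : ∃ m0 : ℕ, ∀ m : ℕ, m0 ≤ m →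
    (((Finset.range m).filter fun i => bl A i ≠ bl B i).card : ℝ) ≤ c * m + M) :
    delta A B ≤ c := by
  obtain ⟨m0, hm0⟩ := h
  refine delta_le fun ε hε => ?_
  have h1 : Tendsto (fun n : ℕ => M / (n : ℝ)) atTop (𝓝 0) :=
    tendsto_const_div_atTop_nhds_zero_nat M
  filter_upwards [h1.eventually (gt_mem_nhds hε), eventually_ge_atTop m0, eventually_ge_atTop 1]
    with n h2 h3 h4
  have hn : (0 : ℝ) < n := by exact_mod_cast h4
  rw [fr_symmDiff, div_le_iff₀ hn]
  have h5 := hm0 n h3
  have h6 : M < ε * n := by rwa [div_lt_iff₀ hn] at h2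
  linarith

/-- **There are a hyperimmune-free degree and a degree that is hyperimmune and PA whose Hausdorff
distance is at most `7 / 8`,** in particular less than `1`. -/
theorem result : ∃ A B : Set ℕ, ¬ Hyperimmune A ∧ Hyperimmune B ∧ IsPA B ∧ H A B ≤ 7 / 8 := by
  obtain ⟨X, Y, h1, h2, h3, h4, h5⟩ := Pool.Agent.MP_e12961_lc.main
  have hcomp : ∀ (Z : ℕ → Bool) (f : ℕ → ℕ), Computes {n | Z n = true} f ↔
      Pool.Agent.MP_e12961_lc.TR Z f := by
    intro Z f
    unfold Computes
    rw [chi_bl, bl_eq]
    exact conv Z f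
  have hred : ∀ (Z : ℕ → Bool) (C : Set ℕ), C ∈ degree {n | Z n = true} →
      Pool.Agent.MP_e12961_lc.TR Z (fun n => (bl C n).toNat) := by
    intro Z C hC
    have := hC.1
    rw [chi_bl, chi_bl, bl_eq] at this
    exact (conv Z _).1 this
  refine ⟨{n | X n = true}, {n | Y n = true}, ?_, ?_, ?_, ?_⟩
  · rintro ⟨f, hf, hno⟩
    obtain ⟨g, hg, hfg⟩ := h1 f ((hcomp X f).1 hf)
    exact hno g hg (Filter.Eventually.of_forall hfg)
  · obtain ⟨f, hf, hno⟩ := h2
    refine ⟨f, (hcomp Y f).2 hf, fun g hg hev => hno ?_⟩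
    obtain ⟨N, hN⟩ := eventually_atTop.1 hev
    refine ⟨fun n => g n + ∑ i ∈ Finset.range N, f i, ?_, fun n => ?_⟩
    · exact (Primrec.nat_add.to_comp).comp hg (Computable.const _)
    · rcases lt_or_ge n N with h | h
      · have := Finset.single_le_sum (f := f) (fun i _ => Nat.zero_le _) (Finset.mem_range.2 h)
        exact this.trans (Nat.le_add_left _ _)
      · exact (hN n h).trans (Nat.le_add_right _ _)
  · intro W hW hX
    obtain ⟨f, hf, hle, hd⟩ := h3
    obtain ⟨P, hP, hP'⟩ := Pool.Agent.MP_e12961_lc.scott Y f hf hle hd W hW hX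
    exact ⟨P, (hcomp Y _).2 hP, hP'⟩
  · have hA : ∀ C ∈ degree {n | X n = true}, delta C {n | Y n = true} ≤ 7 / 8 := by
      intro C hC
      obtain ⟨m0, hm0⟩ := h4 (bl C) (hred X C hC)
      refine delta_le_of_count 1 ⟨m0, fun m hm => ?_⟩
      rw [bl_eq]
      have h6 := hm0 m hm
      have h7 : (8 : ℝ) * (((Finset.range m).filter fun i => bl C i ≠ Y i).card : ℝ) ≤
          7 * m + 8 := by exact_mod_cast h6
      linarith
    have hB : ∀ C ∈ degree {n | Y n = true}, delta C {n | X n = true} ≤ 7 / 8 := by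
      intro C hC
      obtain ⟨m0, hm0⟩ := h5 (bl C) (hred Y C hC)
      refine delta_le_of_count 0 ⟨m0, fun m hm => ?_⟩
      rw [bl_eq]
      have h6 := hm0 m hm
      have h7 : (4 : ℝ) * (((Finset.range m).filter fun i => X i ≠ bl C i).card : ℝ) ≤
          3 * m := by exact_mod_cast h6
      have h8 : ((Finset.range m).filter fun i => bl C i ≠ X i) =
          (Finset.range m).filter fun i => X i ≠ bl C i := by
        refine Finset.filter_congr fun i _ => ne_comm
      rw [h8]
      have h9 : (0 : ℝ) ≤ m := Nat.cast_nonneg m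
      linarith
    unfold H hausdorff
    refine max_le (Real.sSup_le ?_ (by norm_num)) (Real.sSup_le ?_ (by norm_num))
    · rintro _ ⟨x, hx, rfl⟩
      exact (distTo_le (self_mem _)).trans (delta_closure hx hA)
    · rintro _ ⟨x, hx, rfl⟩
      exact (distTo_le (self_mem _)).trans (delta_closure hx hB)

end Pool.Agent.Results.MP_e12961_lc.DistanceLtOne
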